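import Pool.Agent.Q60.TD.Rep2

/-!
# Averaging linear relations between characters
-/

set_option linter.unusedSectionVars false

namespace Pool.Agent.Q10.JT

open Module
open Pool.Agent.Q60.TD (Stab SSon Op mem_Op stab_op)

section one

variable {K V : Type*} [Field K] [AddCommGroup V] [Module K V] {G : Type*} [Group G]
  (P : G →* Module.End K V)

/-- The invariants. -/
def inv : Submodule K V where
  carrier := {x | ∀ g, P g x = x}
  add_mem' {x y} hx hy g := by rw [map_add, hx g, hy g]
  zero_mem' g := map_zero _
  smul_mem' c x hx g := by rw [map_smul, hx g]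

/-- The span of the differences `g x - x`. -/
def dif : Submodule K V := Submodule.span K {y | ∃ g x, y = P g x - x}

variable {P}

lemma mem_inv {x : V} : x ∈ inv P ↔ ∀ g, P g x = x := Iff.rfl

lemma P_mul (g h : G) (x : V) : P (g * h) x = P g (P h x) := by
  rw [map_mul]
  rfl

lemma inv_stab : Stab (Op P ⊤) (inv P) := by
  rw [stab_op]
  intro g _ w hw
  rw [hw g]
  exact hw

lemma dif_stab : Stab (Op P ⊤) (dif P) := by
  rw [stab_op]
  intro g _ w hw
  induction hw using Submodule.span_induction with
  | mem x hx =>
    obtain ⟨h, y, rfl⟩ := hx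
    have h1 : P g (P h y - y) = P (g * h * g⁻¹) (P g y) - P g y := by
      rw [map_sub, P_mul, P_mul]
      have h2 : P g⁻¹ (P g y) = y := by
        rw [← P_mul, inv_mul_cancel, map_one]
        rfl
      rw [h2]
    rw [h1]
    exact Submodule.subset_span ⟨_, _, rfl⟩
  | zero => rw [map_zero]; exact Submodule.zero_mem _
  | add x y _ _ hx hy => rw [map_add]; exact Submodule.add_mem _ hx hy
  | smul c x _ hx => rw [map_smul]; exact Submodule.smul_mem _ c hx

lemma isCompl_dif (h : SSon (Op P ⊤) ⊤) : IsCompl (inv P) (dif P) := by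
  constructor
  · rw [disjoint_iff]
    obtain ⟨C, -, hC, h1, h2⟩ := h (inv P) le_top inv_stab
    have h3 : dif P ≤ C := by
      rw [dif, Submodule.span_le]
      rintro _ ⟨g, x, rfl⟩
      have hx : x ∈ inv P ⊔ C := by rw [h2]; trivial
      obtain ⟨a, ha, c, hc, rfl⟩ := Submodule.mem_sup.1 hx
      have h4 : P g (a + c) - (a + c) = P g c - c := by
        rw [map_add, ha g]
        abel
      change P g (a + c) - (a + c) ∈ C
      rw [h4]
      exact C.sub_mem (stab_op.1 hC g (Subgroup.mem_top g) c hc) hc
    rw [eq_bot_iff, ← h1]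
    exact inf_le_inf_left _ h3
  · rw [codisjoint_iff]
    obtain ⟨D, -, hD, h1, h2⟩ := h (dif P) le_top dif_stab
    have h3 : D ≤ inv P := by
      intro x hx g
      have h4 : P g x - x ∈ dif P ⊓ D :=
        ⟨Submodule.subset_span ⟨g, x, rfl⟩,
          D.sub_mem (stab_op.1 hD g (Subgroup.mem_top g) x hx) hx⟩
      rw [h1, Submodule.mem_bot, sub_eq_zero] at h4
      exact h4
    rw [eq_top_iff, ← h2, sup_comm]
    exact sup_le_sup_right h3 _

/-- The projection onto the invariants is a linear combination of the operators of the group. -/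
theorem exists_avg [FiniteDimensional K V] (h : SSon (Op P ⊤) ⊤) :
    ∃ e ∈ Submodule.span K (Op P ⊤), (∀ x, e x ∈ inv P) ∧ ∀ x ∈ inv P, e x = x := by
  classical
  have hc := isCompl_dif h
  let R := Algebra.adjoin K (Op P ⊤)
  let e : Module.End K V := (inv P).subtype ∘ₗ (inv P).projectionOnto (dif P) hc
  have he1 : ∀ x, e x ∈ inv P := fun x => ((inv P).projectionOnto (dif P) hc x).2
  have he2 : ∀ x ∈ inv P, e x = x := by
    intro x hx
    have h1 := Submodule.projectionOnto_apply_left hc ⟨x, hx⟩
    exact congrArg Subtype.val h1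
  have he3 : ∀ x ∈ dif P, e x = 0 := by
    intro x hx
    have h1 := Submodule.projectionOnto_apply_right hc ⟨x, hx⟩
    exact congrArg Subtype.val h1
  have hsm : ∀ (g : G) (x : V),
      (⟨P g, Algebra.subset_adjoin (mem_Op (Subgroup.mem_top g))⟩ : R) • x = P g x :=
    fun g x => rfl
  have hsc : ∀ (c : K) (x : V), (algebraMap K R c) • x = c • x := by
    intro c x
    change (algebraMap K (Module.End K V) c) x = c • x
    rw [Module.algebraMap_end_apply]
  -- the module is semisimple
  have hcomp : ∀ U : Submodule R V, ∃ b, IsCompl U b := by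
    intro U
    let U' : Submodule K V :=
      { carrier := U
        add_mem' := U.add_mem
        zero_mem' := U.zero_mem
        smul_mem' := fun c x hx => by
          have h1 := U.smul_mem (algebraMap K R c) hx
          rwa [hsc] at h1 }
    have hU' : Stab (Op P ⊤) U' := by
      rw [stab_op]
      intro g _ w hw
      exact U.smul_mem (⟨P g, Algebra.subset_adjoin (mem_Op (Subgroup.mem_top g))⟩ : R) hw
    obtain ⟨C, -, hC, h1, h2⟩ := h U' le_top hU'
    have hCr : ∀ r ∈ Algebra.adjoin K (Op P ⊤), ∀ x ∈ C, r x ∈ C := by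
      intro r hr
      induction hr using Algebra.adjoin_induction with
      | mem a ha => exact hC a ha
      | algebraMap c =>
        intro x hx
        rw [Module.algebraMap_end_apply]
        exact C.smul_mem c hx
      | add a b _ _ ha hb =>
        intro x hx
        rw [LinearMap.add_apply]
        exact C.add_mem (ha x hx) (hb x hx)
      | mul a b _ _ ha hb =>
        intro x hx
        rw [Module.End.mul_apply]
        exact ha _ (hb x hx)
    let C' : Submodule R V :=
      { carrier := C
        add_mem' := C.add_mem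
        zero_mem' := C.zero_mem
        smul_mem' := fun r x hx => hCr r.1 r.2 x hx }
    refine ⟨C', disjoint_iff.2 ?_, codisjoint_iff.2 ?_⟩
    · rw [eq_bot_iff]
      rintro x ⟨hx, hx'⟩
      have h3 : x ∈ U' ⊓ C := ⟨hx, hx'⟩
      rw [h1, Submodule.mem_bot] at h3
      rw [h3]
      exact Submodule.zero_mem _
    · rw [eq_top_iff]
      intro x _
      have h3 : x ∈ U' ⊔ C := by rw [h2]; trivial
      obtain ⟨a, ha, b, hb, rfl⟩ := Submodule.mem_sup.1 h3
      exact Submodule.add_mem_sup ha hb
  have iss : IsSemisimpleModule R V := by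
    have icl : ComplementedLattice (Submodule R V) := ⟨hcomp⟩
    exact { }
  -- the projection commutes with the endomorphisms
  let f : Module.End (Module.End R V) V :=
    { toFun := fun x => e x
      map_add' := fun x y => map_add _ _ _
      map_smul' := fun φ x => by
        change e (φ x) = φ (e x)
        have hφP : ∀ g y, φ (P g y) = P g (φ y) := fun g y => by
          rw [← hsm, map_smul]
          rfl
        have hx : x ∈ inv P ⊔ dif P := by rw [hc.sup_eq_top]; trivial
        obtain ⟨a, ha, b, hb, rfl⟩ := Submodule.mem_sup.1 hx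
        clear hx
        have h1 : φ a ∈ inv P := fun g => by rw [← hφP, ha g]
        have h2 : φ b ∈ dif P := by
          induction hb using Submodule.span_induction with
          | mem x hx =>
            obtain ⟨g, y, rfl⟩ := hx
            rw [map_sub, hφP]
            exact Submodule.subset_span ⟨_, _, rfl⟩
          | zero => rw [map_zero]; exact Submodule.zero_mem _
          | add x y _ _ hx hy =>
            rw [map_add]
            exact Submodule.add_mem _ hx hy
          | smul c x _ hx =>
            rw [← hsc, map_smul, hsc]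
            exact Submodule.smul_mem _ c hx
        rw [map_add, map_add, map_add, he2 _ h1, he3 _ h2, he2 _ ha, he3 _ hb, add_zero,
          add_zero] }
  obtain ⟨r, hr⟩ := jacobson_density f (Finset.univ.image (finBasis K V))
  have her : e = r.1 := by
    refine (finBasis K V).ext fun i => ?_
    exact hr _ (Finset.mem_image_of_mem _ (Finset.mem_univ i))
  refine ⟨e, ?_, he1, he2⟩
  have h5 : (r : Module.End K V) ∈ Submodule.span K (Op P ⊤) := by
    have h6 : (r : Module.End K V) ∈ Subalgebra.toSubmodule (Algebra.adjoin K (Op P ⊤)) := r.2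
    rw [Algebra.adjoin_eq_span] at h6
    have h7 : (Submonoid.closure (Op P ⊤) : Set (Module.End K V)) = Op P ⊤ := by
      have h8 : Op P ⊤ = (MonoidHom.mrange P : Set (Module.End K V)) := by
        ext a
        constructor
        · rintro ⟨g, -, rfl⟩
          exact ⟨g, rfl⟩
        · rintro ⟨g, rfl⟩
          exact ⟨g, Subgroup.mem_top g, rfl⟩
      rw [h8, Submonoid.closure_eq]
    rwa [h7] at h6
  rw [her]
  exact h5

end one

section many

variable {K : Type*} [Field K] {G : Type*} [Group G] {ι : Type*} [Fintype ι] [DecidableEq ι]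
  {M : ι → Type*} [∀ i, AddCommGroup (M i)] [∀ i, Module K (M i)]
  [∀ i, FiniteDimensional K (M i)] (ρ : ∀ i, G →* Module.End K (M i))

/-- The direct sum of the representations. -/
noncomputable def dsum : G →* Module.End K (∀ i, M i) where
  toFun g := LinearMap.pi fun i => ρ i g ∘ₗ LinearMap.proj i
  map_one' := by
    refine LinearMap.ext fun x => ?_
    funext i
    change ρ i 1 (x i) = x i
    rw [map_one]
    rfl
  map_mul' g h := by
    refine LinearMap.ext fun x => ?_
    funext i
    change ρ i (g * h) (x i) = ρ i g (ρ i h (x i))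
    rw [map_mul]
    rfl

lemma dsum_apply (g : G) (x : ∀ i, M i) (i : ι) : dsum ρ g x i = ρ i g (x i) := rfl

lemma dsum_single (g : G) (i : ι) (x : M i) :
    dsum ρ g (LinearMap.single K M i x) = LinearMap.single K M i (ρ i g x) := by
  funext j
  rw [dsum_apply]
  by_cases h : j = i
  · subst h
    rw [LinearMap.single_apply, LinearMap.single_apply, Pi.single_eq_same, Pi.single_eq_same]
  · rw [LinearMap.single_apply, LinearMap.single_apply, Pi.single_eq_of_ne h,
      Pi.single_eq_of_ne h, map_zero]

lemma dsum_ss (h : ∀ i, SSon (Op (ρ i) ⊤) ⊤) : SSon (Op (dsum ρ) ⊤) ⊤ := by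
  have h1 := (SSon.finset_sup (N := Op (dsum ρ) ⊤) Finset.univ
    (F := fun i => (⊤ : Submodule K (M i)).map (LinearMap.single K M i)) ?_ ?_).1
  · rw [Finset.sup_univ_eq_iSup] at h1
    have h2 : (⨆ i, (⊤ : Submodule K (M i)).map (LinearMap.single K M i)) = ⊤ := by
      simp only [Submodule.map_top]
      exact LinearMap.iSup_range_single K M
    rwa [h2] at h1
  · intro i _
    refine SSon.map _ (LinearMap.ker_eq_bot.1 (LinearMap.ker_single K M i)) ?_ ?_ (h i)
    · rintro _ ⟨g, hg, rfl⟩
      exact ⟨_, ⟨g, hg, rfl⟩, fun x => dsum_single ρ g i x⟩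
    · rintro _ ⟨g, hg, rfl⟩
      exact ⟨_, ⟨g, hg, rfl⟩, fun x => dsum_single ρ g i x⟩
  · intro i _
    rw [stab_op]
    rintro g _ _ ⟨x, -, rfl⟩
    rw [dsum_single]
    exact ⟨_, trivial, rfl⟩

/-- **Averaging.** A linear relation between the characters of semisimple representations gives a
linear relation between the dimensions of the spaces of invariants. -/
theorem avg (h : ∀ i, SSon (Op (ρ i) ⊤) ⊤) (c : ι → K)
    (hc : ∀ g, ∑ i, c i * LinearMap.trace K _ (ρ i g) = 0) :
    ∑ i, c i * (finrank K (inv (ρ i)) : K) = 0 := by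
  obtain ⟨e, he, h1, h2⟩ := exists_avg (dsum_ss ρ h)
  let L : Module.End K (∀ i, M i) →ₗ[K] K := ∑ i, c i • (LinearMap.trace K (M i) ∘ₗ
    (LinearMap.compRight K (LinearMap.proj i)) ∘ₗ LinearMap.lcomp K _ (LinearMap.single K M i))
  have hL : ∀ T, L T = ∑ i, c i * LinearMap.trace K (M i)
      (LinearMap.proj i ∘ₗ T ∘ₗ LinearMap.single K M i) := by
    intro T
    rw [LinearMap.sum_apply]
    rfl
  have h3 : L e = 0 := by
    have h4 : Submodule.span K (Op (dsum ρ) ⊤) ≤ LinearMap.ker L := by
      rw [Submodule.span_le]
      rintro _ ⟨g, -, rfl⟩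
      change L _ = 0
      rw [hL, ← hc g]
      refine Finset.sum_congr rfl fun i _ => ?_
      congr 2
      refine LinearMap.ext fun x => ?_
      change dsum ρ g (LinearMap.single K M i x) i = _
      rw [dsum_single, LinearMap.single_apply, Pi.single_eq_same]
    exact h4 he
  rw [hL] at h3
  rw [← h3]
  refine Finset.sum_congr rfl fun i _ => ?_
  congr 1
  have h5 : LinearMap.IsProj (inv (ρ i)) (LinearMap.proj i ∘ₗ e ∘ₗ LinearMap.single K M i) := by
    constructor
    · intro x g
      have h6 := h1 (LinearMap.single K M i x) g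
      exact congrFun h6 i
    · intro x hx
      have h6 : LinearMap.single K M i x ∈ inv (dsum ρ) := by
        intro g
        rw [dsum_single, hx g]
      change e (LinearMap.single K M i x) i = x
      rw [h2 _ h6, LinearMap.single_apply, Pi.single_eq_same]
  exact (LinearMap.IsProj.trace h5).symm

end many

end Pool.Agent.Q10.JT
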