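import Pool.Agent.Q10.JT.Defs

/-!
# Alternating classes and exterior powers
-/

open CategoryTheory AlgebraicGeometry

universe u w

set_option linter.unusedSectionVars false

namespace Pool.Agent.Q10.JT

open Module
open Pool.Agent.H914 Pool.Agent.H914.VarClass Pool.Agent.H914.VarClass.Obj
  Pool.Agent.H914.WeilCohomology
open Pool.Agent.Y133.Half (pw prj wb wb_eq)
open Pool.Agent.Q55 (GaloisAction SubAction Virtually)
open Pool.Agent.Q50.MTC (IsTate)
open Pool.Agent.Q50.LI (dimSpan)

variable {k : Type u} [Field k] {𝒱 : VarClass k} {ops : CycleOps 𝒱}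
  {E : WeilCohomology.{u, 0} ops}

section ext

variable (E) (X : 𝒱.Obj) (n : ℕ) (S : Submodule E.K (E.H X))

/-- The external product. -/
noncomputable def mulM : MultilinearMap E.K (fun _ : Fin (n + 1) => S) (E.H (pw X n)) :=
  (MultilinearMap.mkPiAlgebraFin E.K (n + 1) (E.H (pw X n))).compLinearMap fun l =>
    (E.map (prj X n l)).toLinearMap ∘ₗ S.subtype

/-- The alternating product. -/
noncomputable def altM : S [⋀^Fin (n + 1)]→ₗ[E.K] E.H (pw X n) :=
  MultilinearMap.alternatization (mulM E X n S)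

/-- The map from the exterior power. -/
noncomputable def extM : ⋀[E.K]^(n + 1) S →ₗ[E.K] E.H (pw X n) :=
  exteriorPower.alternatingMapLinearEquiv (altM E X n S)

variable {E X n S}

lemma altM_apply (v : Fin (n + 1) → S) :
    altM E X n S v = altProd E X n fun l => (v l : E.H X) := by
  rw [altM, MultilinearMap.alternatization_apply]
  rfl

lemma extM_ι (v : Fin (n + 1) → S) :
    extM E X n S (exteriorPower.ιMulti E.K (n + 1) v) = altProd E X n fun l => (v l : E.H X) := by
  rw [extM, exteriorPower.alternatingMapLinearEquiv_apply_ιMulti, altM_apply]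

lemma range_extM : LinearMap.range (extM E X n S) = altSpan E X n (fun x => x ∈ S) := by
  rw [LinearMap.range_eq_map, ← exteriorPower.ιMulti_span E.K (n + 1) S, Submodule.map_span,
    altSpan, altSpanOf]
  congr 1
  ext c
  constructor
  · rintro ⟨_, ⟨v, rfl⟩, rfl⟩
    exact ⟨fun l => (v l : E.H X), fun l => (v l).2, extM_ι v⟩
  · rintro ⟨v, hv, rfl⟩
    exact ⟨_, ⟨fun l => ⟨v l, hv l⟩, rfl⟩, extM_ι _⟩

end ext

/-- A basis which contains a basis of `H^(2 j)`. -/
lemma exists_basis (E : WeilCohomology.{u, 0} ops) (X : 𝒱.Obj) (i : ℕ) :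
    ∃ (ι : Type) (_ : Fintype ι) (_ : DecidableEq ι) (e : Basis ι E.K (E.H X))
      (v : Fin (finrank E.K (E.gr X i)) → ι), Function.Injective v ∧
      ∀ a, e (v a) = (finBasis E.K (E.gr X i) a : E.H X) := by
  classical
  let b := (E.isInternal X).collectedBasis fun i => finBasis E.K (E.gr X i)
  have hf : Fintype (Σ i, Fin (finrank E.K (E.gr X i))) := FiniteDimensional.fintypeBasisIndex b
  refine ⟨_, hf, inferInstance, b, fun a => ⟨i, a⟩, fun a a' h => ?_, fun a => ?_⟩
  · simpa using h
  · exact congrFun (((E.isInternal X).collectedBasis_coe) fun i => finBasis E.K (E.gr X i)) _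

/-- **The map from the exterior power is injective.** -/
theorem extM_inj (X : 𝒱.Obj) (n i : ℕ) : Function.Injective (extM E X n (E.gr X i)) := by
  classical
  obtain ⟨ι, hι, hd, e, v, hv, he⟩ := exists_basis E X i
  let b := finBasis E.K (E.gr X i)
  let wd : Set.powersetCard (Fin (finrank E.K (E.gr X i))) (n + 1) → Fin (n + 1) → ι :=
    fun s l => v (Set.powersetCard.ofFinEmbEquiv.symm s l)
  have key : ∀ s, (wb e n).coord (wd s) ∘ₗ extM E X n (E.gr X i) =
      (b.exteriorPower (n + 1)).coord s := by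
    intro s
    refine (b.exteriorPower (n + 1)).ext fun t => ?_
    have hR : (b.exteriorPower (n + 1)).coord s (b.exteriorPower (n + 1) t) =
        if t = s then 1 else 0 := by
      rw [Basis.coord_apply, Basis.repr_self, Finsupp.single_apply]
    rw [hR, LinearMap.comp_apply, exteriorPower.basis_apply, exteriorPower.ιMulti_family, extM_ι,
      altProd, altSum, map_sum]
    have h1 : ∀ σ : Equiv.Perm (Fin (n + 1)), (wb e n).coord (wd s) (Equiv.Perm.sign σ •
        (List.ofFn fun l => E.map (prj X n l)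
          ((b (Set.powersetCard.ofFinEmbEquiv.symm t (σ l)) : E.gr X i) : E.H X)).prod) =
        Equiv.Perm.sign σ • (if (fun l => wd t (σ l)) = wd s then (1 : E.K) else 0) := by
      intro σ
      have h2 : (List.ofFn fun l => E.map (prj X n l)
          ((b (Set.powersetCard.ofFinEmbEquiv.symm t (σ l)) : E.gr X i) : E.H X)).prod =
          wb e n (fun l => wd t (σ l)) := by
        rw [wb_eq]
        congr 2
        funext l
        rw [← he]
      rw [h2, Units.smul_def, map_zsmul, Basis.coord_apply, Basis.repr_self,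
        Finsupp.single_apply]
      rfl
    refine (Finset.sum_congr rfl fun σ _ => h1 σ).trans ?_
    by_cases hst : t = s
    · subst hst
      rw [if_pos rfl, Finset.sum_eq_single 1]
      · rw [Equiv.Perm.sign_one, one_smul, if_pos]
        rfl
      · intro σ _ hσ
        rw [if_neg, smul_zero]
        intro h
        apply hσ
        refine Equiv.ext fun l => ?_
        have h3 := hv (congrFun h l)
        exact (Set.powersetCard.ofFinEmbEquiv.symm t).injective h3
      · intro h
        exact absurd (Finset.mem_univ _) h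
    · rw [if_neg hst]
      refine Finset.sum_eq_zero fun σ _ => ?_
      rw [if_neg, smul_zero]
      intro h
      apply hst
      apply Subtype.ext
      ext a
      have h4 : ∀ l, Set.powersetCard.ofFinEmbEquiv.symm t (σ l) =
          Set.powersetCard.ofFinEmbEquiv.symm s l := fun l => hv (congrFun h l)
      constructor
      · intro ha
        obtain ⟨l, hl⟩ := (Set.powersetCard.mem_range_ofFinEmbEquiv_symm_iff_mem t a).2 ha
        refine (Set.powersetCard.mem_range_ofFinEmbEquiv_symm_iff_mem s a).1 ⟨σ.symm l, ?_⟩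
        rw [← h4, Equiv.apply_symm_apply]
        exact hl
      · intro ha
        obtain ⟨l, hl⟩ := (Set.powersetCard.mem_range_ofFinEmbEquiv_symm_iff_mem s a).2 ha
        refine (Set.powersetCard.mem_range_ofFinEmbEquiv_symm_iff_mem t a).1 ⟨σ l, ?_⟩
        rw [h4]
        exact hl
  rw [injective_iff_map_eq_zero]
  intro x hx
  apply (b.exteriorPower (n + 1)).ext_elem
  intro s
  have h1 := LinearMap.congr_fun (key s) x
  rw [LinearMap.comp_apply, hx, map_zero] at h1
  rw [map_zero, Finsupp.zero_apply]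
  exact h1.symm

section act

variable {Γ : Type w} [Group Γ] {G : GaloisAction E Γ} {X : 𝒱.Obj}

/-- The element `g` acts on the power compatibly with the projections. -/
def Good (G : GaloisAction E Γ) (X : 𝒱.Obj) (n : ℕ) (g : Γ) : Prop :=
  g ∈ (G.ρ X).dom ∧ g ∈ (G.ρ (pw X n)).dom ∧
    ∀ i, (G.ρ (pw X n)).Commutes (G.ρ X) (E.map (prj X n i)) g

lemma exists_good (G : GaloisAction E Γ) (X : 𝒱.Obj) (n : ℕ) :
    ∃ Δ : Subgroup Γ, Δ.FiniteIndex ∧ ∀ g ∈ Δ, Good G X n g := by
  choose D hD h using fun i => G.map_act (prj X n i)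
  have h1 := (G.isGalois X).finiteIndex
  have h2 := (G.isGalois (pw X n)).finiteIndex
  have h3 : (⨅ i, D i).FiniteIndex := Subgroup.finiteIndex_iInf hD
  refine ⟨(G.ρ X).dom ⊓ (G.ρ (pw X n)).dom ⊓ ⨅ i, D i, inferInstance, ?_⟩
  rintro g ⟨⟨hg1, hg2⟩, hg3⟩
  refine ⟨hg1, hg2, fun i => h i g ?_⟩
  exact (Subgroup.mem_iInf.1 hg3) i

lemma act_altProd {n : ℕ} {g : Γ} (hg : Good G X n g) (v : Fin (n + 1) → E.H X) :
    (G.ρ (pw X n)).act g (altProd E X n v) =
      altProd E X n fun l => (G.ρ X).act g (v l) := by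
  rw [altProd, altProd, altSum, altSum, map_sum]
  refine Finset.sum_congr rfl fun σ _ => ?_
  rw [Units.smul_def, map_zsmul, map_list_prod, List.map_ofFn, Units.smul_def]
  congr 3
  funext l
  exact (hg.2.2 l hg.2.1 hg.1 (v (σ l))).symm

variable (G X) in
/-- The representation on `H^(2 j)(X)`, twisted. -/
noncomputable def repV (j : ℕ) (Δ : Subgroup Γ) (hΔ : Δ ≤ (G.ρ X).dom) :
    Δ →* Module.End E.K (E.gr X (2 * j)) where
  toFun g := ((G.χ g : E.K) ^ j)⁻¹ • ((G.ρ X).act g).toLinearMap.restrict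
    (fun x hx => (G.isGalois X).gr_mem g (hΔ g.2) (2 * j) x hx)
  map_one' := by
    refine LinearMap.ext fun x => Subtype.ext ?_
    change ((G.χ (1 : Γ) : E.K) ^ j)⁻¹ • (G.ρ X).act 1 (x : E.H X) = x
    have h1 : (G.ρ X).act 1 = 1 := by
      have h2 := (G.ρ X).act_mul 1 (Subgroup.one_mem _) 1 (Subgroup.one_mem _)
      rw [mul_one] at h2
      exact mul_eq_left.1 h2.symm
    rw [h1, map_one, Units.val_one, one_pow, inv_one, one_smul]
    rfl
  map_mul' g h := by
    refine LinearMap.ext fun x => Subtype.ext ?_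
    change ((G.χ ((g : Γ) * (h : Γ)) : E.K) ^ j)⁻¹ • (G.ρ X).act (g * h) (x : E.H X) =
      ((G.χ g : E.K) ^ j)⁻¹ • (G.ρ X).act g (((G.χ h : E.K) ^ j)⁻¹ • (G.ρ X).act h (x : E.H X))
    rw [(G.ρ X).act_mul _ (hΔ g.2) _ (hΔ h.2), map_mul, Units.val_mul, mul_pow, mul_inv, map_smul,
      smul_smul]
    rfl

lemma repV_coe {j : ℕ} {Δ : Subgroup Γ} {hΔ : Δ ≤ (G.ρ X).dom} (g : Δ) (x : E.gr X (2 * j)) :
    (repV G X j Δ hΔ g x : E.H X) = ((G.χ g : E.K) ^ j)⁻¹ • (G.ρ X).act g (x : E.H X) := rfl

/-- The exterior powers of a representation. -/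
noncomputable def repL {K V : Type*} [Field K] [AddCommGroup V] [Module K V] {D : Type*} [Group D]
    (ρ : D →* Module.End K V) (n : ℕ) : D →* Module.End K (⋀[K]^n V) where
  toFun g := exteriorPower.map n (ρ g)
  map_one' := by
    rw [map_one]
    exact exteriorPower.map_id
  map_mul' g h := by
    rw [map_mul]
    exact exteriorPower.map_comp _ _

lemma repL_apply {K V : Type*} [Field K] [AddCommGroup V] [Module K V] {D : Type*} [Group D]
    (ρ : D →* Module.End K V) (n : ℕ) (g : D) : repL ρ n g = exteriorPower.map n (ρ g) := rfl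

/-- **Equivariance.** -/
theorem extM_repL {j n : ℕ} {Δ : Subgroup Γ} {hΔ : Δ ≤ (G.ρ X).dom} (g : Δ)
    (hg : Good G X n g) (x : ⋀[E.K]^(n + 1) (E.gr X (2 * j))) :
    extM E X n (E.gr X (2 * j)) (repL (repV G X j Δ hΔ) (n + 1) g x) =
      ((G.χ g : E.K) ^ (j * (n + 1)))⁻¹ •
        (G.ρ (pw X n)).act g (extM E X n (E.gr X (2 * j)) x) := by
  have key : extM E X n (E.gr X (2 * j)) ∘ₗ repL (repV G X j Δ hΔ) (n + 1) g =
      ((G.χ g : E.K) ^ (j * (n + 1)))⁻¹ • ((G.ρ (pw X n)).act g).toLinearMap ∘ₗ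
        extM E X n (E.gr X (2 * j)) := by
    apply exteriorPower.linearMap_ext
    ext v
    change extM E X n (E.gr X (2 * j)) (exteriorPower.map (n + 1) (repV G X j Δ hΔ g)
      (exteriorPower.ιMulti E.K (n + 1) v)) = ((G.χ g : E.K) ^ (j * (n + 1)))⁻¹ •
        (G.ρ (pw X n)).act g (extM E X n (E.gr X (2 * j)) (exteriorPower.ιMulti E.K (n + 1) v))
    rw [exteriorPower.map_apply_ιMulti, extM_ι, extM_ι, act_altProd hg]
    let v' : Fin (n + 1) → E.gr X (2 * j) := fun l =>
      ⟨(G.ρ X).act g (v l), (G.isGalois X).gr_mem g (hΔ g.2) (2 * j) _ (v l).2⟩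
    have h1 := (altM E X n (E.gr X (2 * j))).toMultilinearMap.map_smul_univ
      (fun _ => ((G.χ g : E.K) ^ j)⁻¹) v'
    rw [Finset.prod_const, Finset.card_univ, Fintype.card_fin, inv_pow, ← pow_mul] at h1
    have h2 : ∀ y : Fin (n + 1) → E.gr X (2 * j),
      (altM E X n (E.gr X (2 * j))).toMultilinearMap y = altProd E X n fun l => (y l : E.H X) :=
      fun y => altM_apply y
    rw [h2, h2] at h1
    exact h1
  exact LinearMap.congr_fun key x

end act

end Pool.Agent.Q10.JT
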