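import Pool.Agent.Q10.JT.Pol

/-!
# The traces of an operator on the exterior powers
-/

open Polynomial Module

namespace Pool.Agent.Q10.JT

variable {K V : Type*} [Field K] [AddCommGroup V] [Module K V]

/-- The trace on the exterior power is the sum of the principal minors. -/
theorem trace_ext {I : Type*} [Fintype I] [LinearOrder I] (b : Basis I K V) (f : V →ₗ[K] V)
    (n : ℕ) : LinearMap.trace K _ (exteriorPower.map n f) =
      ∑ s ∈ Finset.univ.powersetCard n,
        ((LinearMap.toMatrix b b f).submatrix (Subtype.val : s → I)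
          (Subtype.val : s → I)).det := by
  classical
  have : Fintype (Set.powersetCard I n) := Fintype.ofFinite _
  rw [LinearMap.trace_eq_matrix_trace K (b.exteriorPower n), Matrix.trace]
  have h1 : ∀ s : Set.powersetCard I n, (LinearMap.toMatrix (b.exteriorPower n) (b.exteriorPower n)
      (exteriorPower.map n f)).diag s = ((LinearMap.toMatrix b b f).submatrix
        (Subtype.val : ↥s.1 → I) (Subtype.val : ↥s.1 → I)).det := by
    intro s
    rw [Matrix.diag_apply, LinearMap.toMatrix_apply, exteriorPower.basis_apply,
      exteriorPower.basis_repr_apply, exteriorPower.ιMulti_family, exteriorPower.map_apply_ιMulti,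
      exteriorPower.ιMultiDual_apply_ιMulti, ← Matrix.det_transpose]
    let o : Fin n ≃ (s : Finset I) := ((s : Finset I).orderIsoOfFin s.2).toEquiv
    rw [← Matrix.det_submatrix_equiv_self o]
    congr 1
    ext i j
    rw [Matrix.transpose_apply, Matrix.of_apply, Matrix.submatrix_apply, Matrix.submatrix_apply,
      LinearMap.toMatrix_apply, Basis.coord_apply]
    rfl
  rw [Finset.sum_congr rfl fun s _ => h1 s]
  refine Finset.sum_bij (fun s _ => (s : Finset I)) (fun s _ => ?_) (fun s _ t _ h => ?_)
    (fun s hs => ?_) (fun s _ => rfl)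
  · rw [Finset.mem_powersetCard]
    exact ⟨Finset.subset_univ _, s.2⟩
  · exact Subtype.ext h
  · rw [Finset.mem_powersetCard] at hs
    exact ⟨⟨s, hs.2⟩, Finset.mem_univ _, rfl⟩

variable [FiniteDimensional K V]

/-- The polynomial `det (1 - X f)` in terms of the traces on the exterior powers. -/
theorem ext_dvd {f : V →ₗ[K] V} {r : ℕ} (h : r ≤ finrank K (End.eigenspace f 1)) {i : ℕ}
    (hi : i < r) : ∑ n ∈ Finset.range (finrank K V + 1), (n.choose i : K) *
      ((-1) ^ n * LinearMap.trace K _ (exteriorPower.map n f)) = 0 := by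
  classical
  let b := finBasis K V
  let M := LinearMap.toMatrix b b f
  have h1 : (X - C 1) ^ r ∣ M.charpoly := by
    have h2 := LinearMap.finrank_eigenspace_le f (1 : K)
    rw [LinearMap.charpoly_toMatrix]
    refine (le_rootMultiplicity_iff (LinearMap.charpoly_monic f).ne_zero).1 (h.trans h2)
  have h2 := (dvd_iff (rev_natDegree M) r).1 (rev_dvd h1) i hi
  rw [Fintype.card_fin] at h2
  rw [← h2]
  refine Finset.sum_congr rfl fun n _ => ?_
  rw [rev_coeff, trace_ext b]

end Pool.Agent.Q10.JT
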