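import Pool.Agent.Q10.JT.Geo
import Pool.Agent.Q10.JT.Ext

/-!
# Passing to the closure
-/

open CategoryTheory AlgebraicGeometry

universe u w

set_option linter.unusedSectionVars false

namespace Pool.Agent.Q10.JT

open Module
open Pool.Agent.H914 Pool.Agent.H914.VarClass Pool.Agent.H914.VarClass.Obj
  Pool.Agent.H914.WeilCohomology
open Pool.Agent.Q55 (GaloisAction SubAction Virtually)
open Pool.Agent.Q50.MTC (IsTate IsLadic)
open Pool.Agent.Q50.LI (dimSpan)

variable {k : Type u} [Field k] {𝒱 : VarClass k} {ops : CycleOps 𝒱}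
  {E : WeilCohomology.{u, 0} ops} {Γ : Type w} [Group Γ] {G : GaloisAction E Γ} {X : 𝒱.Obj}

/-- The alternating sum of the traces on the exterior powers. -/
noncomputable def altTr {K V : Type*} [Field K] [AddCommGroup V] [Module K V] (i : ℕ)
    (f : V →ₗ[K] V) : K :=
  ∑ n ∈ Finset.range (finrank K V + 1), (n.choose i : K) *
      ((-1) ^ n * LinearMap.trace K _ (exteriorPower.map n f))

lemma map_altTr {K V L : Type*} [Field K] [AddCommGroup V] [Module K V] [FiniteDimensional K V]
    [Field L] (e : K →+* L) (i : ℕ) (f : V →ₗ[K] V) : e (altTr i f) =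
      ∑ n ∈ Finset.range (finrank K V + 1), (n.choose i : L) *
      ((-1) ^ n * ∑ s ∈ Finset.univ.powersetCard n,
        (((LinearMap.toMatrix (finBasis K V) (finBasis K V) f).map e).submatrix
          (Subtype.val : s → Fin (finrank K V)) (Subtype.val : s → Fin (finrank K V))).det) := by
  rw [altTr, map_sum]
  refine Finset.sum_congr rfl fun n _ => ?_
  rw [trace_ext (finBasis K V), map_mul, map_mul, map_natCast, map_pow, map_neg, map_one, map_sum]
  congr 2
  refine Finset.sum_congr rfl fun s _ => ?_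
  rw [RingHom.map_det]
  rfl

variable (G X) in
lemma finrank_eigen {j r : ℕ} {γ : Γ} (hγ : ManyFixed G X j r γ) :
    r ≤ finrank E.K (End.eigenspace (repV G X j (G.ρ X).dom le_rfl ⟨γ, hγ.1⟩) 1) := by
  refine hγ.2.trans ?_
  let f := repV G X j (G.ρ X).dom le_rfl ⟨γ, hγ.1⟩
  have h1 : Submodule.span E.K {c | c ∈ E.gr X (2 * j) ∧ (G.ρ X).Twists G.χ j c γ} ≤
      (End.eigenspace f 1).map (E.gr X (2 * j)).subtype := by
    rw [Submodule.span_le]
    rintro c ⟨hc, ht⟩
    refine ⟨⟨c, hc⟩, ?_, rfl⟩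
    change _ ∈ End.eigenspace f 1
    rw [End.mem_eigenspace_iff, one_smul]
    apply Subtype.ext
    rw [repV_coe]
    change ((G.χ γ : E.K) ^ j)⁻¹ • (G.ρ X).act γ c = c
    rw [ht hγ.1, smul_smul, inv_mul_cancel₀ (pow_ne_zero _ (Units.ne_zero _)), one_smul]
  exact (Submodule.finrank_mono h1).trans (Submodule.finrank_map_le _ _)

/-- **The condition on the traces passes to the closure.** -/
theorem altTr_closure [TopologicalSpace Γ] {ℓ : ℕ} [Fact ℓ.Prime] {e : E.K ≃+* ℚ_[ℓ]}
    (hX : IsLadic (G.ρ X) G.χ e) {j r : ℕ} {γ : Γ} (hγ : γ ∈ closure {γ | ManyFixed G X j r γ})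
    (hd : γ ∈ (G.ρ X).dom) {i : ℕ} (hi : i < r) :
    altTr i (repV G X j (G.ρ X).dom le_rfl ⟨γ, hd⟩) = 0 := by
  classical
  have tg := hX.topGroup
  let D := (G.ρ X).dom
  let V := E.gr X (2 * j)
  let b := finBasis E.K V
  let F : D → ℚ_[ℓ] := fun γ => e (altTr i (repV G X j D le_rfl γ))
  have hF : Continuous F := by
    have h1 : F = fun γ => ∑ n ∈ Finset.range (finrank E.K V + 1), (n.choose i : ℚ_[ℓ]) *
      ((-1) ^ n * ∑ s ∈ Finset.univ.powersetCard n,
        (((LinearMap.toMatrix b b (repV G X j D le_rfl γ)).map e).submatrix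
          (Subtype.val : s → Fin (finrank E.K V)) (Subtype.val : s → Fin (finrank E.K V))).det) :=
      funext fun γ => map_altTr (e : E.K →+* ℚ_[ℓ]) i _
    rw [h1]
    have hM : Continuous fun γ : D => (LinearMap.toMatrix b b (repV G X j D le_rfl γ)).map e := by
      refine continuous_matrix fun a c => ?_
      obtain ⟨f, hf⟩ := (b.coord a).exists_extend
      have h2 : ∀ γ : D, (LinearMap.toMatrix b b (repV G X j D le_rfl γ)).map e a c =
          (e (G.χ γ) ^ j)⁻¹ * e (f ((G.ρ X).act γ (b c))) := by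
        intro γ
        rw [Matrix.map_apply, LinearMap.toMatrix_apply, ← Basis.coord_apply, ← hf,
          LinearMap.comp_apply, Submodule.subtype_apply, repV_coe, map_smul, smul_eq_mul, map_mul,
          map_inv₀, map_pow]
      have h3 : (fun γ : D => (LinearMap.toMatrix b b (repV G X j D le_rfl γ)).map e a c) =
          fun γ : D => (e (G.χ γ) ^ j)⁻¹ * e (f ((G.ρ X).act γ (b c))) := funext h2
      rw [h3]
      refine Continuous.mul ?_ (hX.cont _ f)
      refine Continuous.inv₀ (hX.cont'.pow j) fun γ => pow_ne_zero _ ?_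
      rw [Ne, map_eq_zero]
      exact Units.ne_zero _
    refine continuous_finsetSum _ fun n _ => ?_
    have h5 : Continuous fun γ : D => ∑ s ∈ Finset.univ.powersetCard n,
        (((LinearMap.toMatrix b b (repV G X j D le_rfl γ)).map e).submatrix
          (Subtype.val : s → Fin (finrank E.K V)) (Subtype.val : s → Fin (finrank E.K V))).det :=
      continuous_finsetSum _ fun s _ => (hM.matrix_submatrix _ _).matrix_det
    have h6 := (continuous_const (y := (n.choose i : ℚ_[ℓ]))).mul
      ((continuous_const (y := (-1 : ℚ_[ℓ]) ^ n)).mul h5)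
    exact h6
  have hZ : IsClosed ((Subtype.val : D → Γ) '' {γ | F γ = 0}) := by
    have h1 : IsClosed (D : Set Γ) := D.isClosed_of_isOpen hX.isOpen
    exact h1.isClosedEmbedding_subtypeVal.isClosedMap _ (isClosed_eq hF continuous_const)
  have hsub : {γ | ManyFixed G X j r γ} ⊆ (Subtype.val : D → Γ) '' {γ | F γ = 0} := by
    intro γ hγ
    refine ⟨⟨γ, hγ.1⟩, ?_, rfl⟩
    change e (altTr i (repV G X j D le_rfl ⟨γ, hγ.1⟩)) = 0
    rw [map_eq_zero]
    exact ext_dvd (finrank_eigen G X hγ) hi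
  obtain ⟨γ', h1, h2⟩ := closure_minimal hsub hZ hγ
  have h3 : γ' = ⟨γ, hd⟩ := Subtype.ext h2
  rw [h3] at h1
  exact (map_eq_zero e).1 h1

end Pool.Agent.Q10.JT
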