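import Pool.Agent.Q50.LI.FDefs
import Pool.Agent.Q60.TD.Defs

/-!
# Alternating classes on the powers of a variety: definitions
-/

open CategoryTheory AlgebraicGeometry Polynomial

universe u w

namespace Pool.Agent.Q10.JT

open Pool.Agent.H914 Pool.Agent.H914.VarClass Pool.Agent.H914.VarClass.Obj
  Pool.Agent.H914.WeilCohomology
open Pool.Agent.Y133.Half (pw prj)
open Pool.Agent.Q55 (GaloisAction SubAction Virtually)
open Pool.Agent.Q50.MTC (IsTate VirtFixed)
open Pool.Agent.Q50.LI (dimSpan)
open Pool.Agent.Q60.TD (SemisimpleAt)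

section Alg

variable {Γ : Type w} [Group Γ] {K A B : Type} [Field K] [Ring A] [Algebra K A] [Ring B]
  [Algebra K B]

/-- The alternating product: the sum over the permutations `σ` of the products
`sign σ * (p 0 (v (σ 0)) * ... * p n (v (σ n)))`. -/
def altSum {n : ℕ} (p : Fin n → (A →ₐ[K] B)) (v : Fin n → A) : B :=
  ∑ σ : Equiv.Perm (Fin n), Equiv.Perm.sign σ • (List.ofFn fun l => p l (v (σ l))).prod

/-- The space spanned by the alternating products of elements with the property `P`. -/
def altSpanOf {n : ℕ} (p : Fin n → (A →ₐ[K] B)) (P : A → Prop) : Submodule K B :=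
  Submodule.span K {c | ∃ v : Fin n → A, (∀ l, P (v l)) ∧ c = altSum p v}

/-- The element `c` of `gr` is multiplied by `χ γ ^ j` by `γ`. -/
def FixedIn (ρ : SubAction Γ K A) (χ : Γ →* Kˣ) (gr : Submodule K A) (j : ℕ) (γ : Γ) (c : A) :
    Prop :=
  c ∈ gr ∧ ρ.Twists χ j c γ

/-- The element `γ` acts, and there are at least `r` linearly independent elements of `gr` which are
multiplied by `χ γ ^ j` by `γ`. -/
def FixesMany (ρ : SubAction Γ K A) (χ : Γ →* Kˣ) (gr : Submodule K A) (j r : ℕ) (γ : Γ) : Prop :=
  γ ∈ ρ.dom ∧ r ≤ dimSpan K (FixedIn ρ χ gr j γ)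

/-- The element `γ` acts, and all the elements `c` of `gr` which are multiplied by `χ γ ^ j` by `γ`
are fixed, up to the twist, by a subgroup of finite index. -/
def NothingNew (ρ : SubAction Γ K A) (χ : Γ →* Kˣ) (gr : Submodule K A) (j : ℕ) (γ : Γ) : Prop :=
  γ ∈ ρ.dom ∧ ∀ c, FixedIn ρ χ gr j γ c → VirtFixed ρ χ gr j c

/-- Every element with the property `P` is in the subspace `U`. -/
def AllIn (P : A → Prop) (U : Submodule K A) : Prop := ∀ c, P c → c ∈ U

end Alg

/-- The closure of the set of the elements with the property `P` contains a subgroup of finite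
index. -/
def VirtDense {Γ : Type w} [Group Γ] [TopologicalSpace Γ] (P : Γ → Prop) : Prop :=
  Virtually fun γ => γ ∈ closure {γ | P γ}

/-- Every subgroup of finite index meets an open set all of whose elements have the
property `P`. -/
def OftenTrue {Γ : Type w} [Group Γ] [TopologicalSpace Γ] (P : Γ → Prop) : Prop :=
  ∀ Δ : Subgroup Γ, Δ.FiniteIndex → ∃ U : Set Γ, IsOpen U ∧ (U ∩ Δ).Nonempty ∧ ∀ γ ∈ U, P γ

variable {k : Type u} [Field k] {𝒱 : VarClass k} {ops : CycleOps 𝒱}
  {E : WeilCohomology.{u, 0} ops}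

/-- The alternating product of the classes `v 0, ..., v n` on `X`: the sum over the permutations
`σ` of `0, ..., n` of the classes `sign σ * (p_0^* v (σ 0) * ... * p_n^* v (σ n))` on
`X ^ (n + 1)`. -/
noncomputable def altProd (E : WeilCohomology.{u, 0} ops) (X : 𝒱.Obj) (n : ℕ)
    (v : Fin (n + 1) → E.H X) : E.H (pw X n) :=
  altSum (fun l => E.map (prj X n l)) v

/-- The space spanned by the alternating products of `n + 1` classes with the property `p`. -/
noncomputable def altSpan (E : WeilCohomology.{u, 0} ops) (X : 𝒱.Obj) (n : ℕ)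
    (p : E.H X → Prop) : Submodule E.K (E.H (pw X n)) :=
  altSpanOf (fun l => E.map (prj X n l)) p

/-- The class `x` is in `H^(2 j)(X)`. -/
def InDeg (E : WeilCohomology.{u, 0} ops) (X : 𝒱.Obj) (j : ℕ) (x : E.H X) : Prop :=
  x ∈ E.gr X (2 * j)

/-- The dimension of `H^(2 j)(X)`. -/
noncomputable def betti (E : WeilCohomology.{u, 0} ops) (X : 𝒱.Obj) (j : ℕ) : ℕ :=
  dimSpan E.K (InDeg E X j)

variable {Γ : Type w} [Group Γ] (G : GaloisAction E Γ)

/-- The class `c` on `X ^ (n + 1)` is an alternating Tate class: it is a Tate class, and it is in the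
subspace `Λ ^ (n + 1) H^(2 j)(X)` spanned by the alternating products of classes of degree `2 j`. -/
def IsAltTate (X : 𝒱.Obj) (j n : ℕ) (c : E.H (pw X n)) : Prop :=
  c ∈ altSpan E X n (InDeg E X j) ∧ IsTate G (pw X n) (j * (n + 1)) c

/-- The dimension of the space of the alternating Tate classes in `Λ ^ n H^(2 j)(X)`. -/
noncomputable def altDim (X : 𝒱.Obj) (j : ℕ) : ℕ → ℕ
  | 0 => 1
  | n + 1 => dimSpan E.K (IsAltTate G X j n)

/-- The polynomial `∑ t_n (-T) ^ n`, where `t_n` is the dimension of the space of the alternating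
Tate classes in `Λ ^ n H^(2 j)(X)`. -/
noncomputable def altPoly (X : 𝒱.Obj) (j : ℕ) : ℤ[X] :=
  ∑ n ∈ Finset.range (betti E X j + 1), C (altDim G X j n : ℤ) * (-Polynomial.X) ^ n

/-- There are at least `r` linearly independent classes in `H^(2 j)(X)` which are fixed by `γ` up to
the twist. For the Frobenius element at a place `v` of good reduction these are the Tate classes on
the reduction at `v`. -/
def ManyFixed (X : 𝒱.Obj) (j r : ℕ) (γ : Γ) : Prop :=
  FixesMany (G.ρ X) G.χ (E.gr X (2 * j)) j r γ

/-- All the classes in `H^(2 j)(X)` which are fixed by `γ` up to the twist are Tate classes. For the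
Frobenius element at a place `v` of good reduction this says that all Tate classes on the reduction
at `v` come from Tate classes on `X`. -/
def NoJump (X : 𝒱.Obj) (j : ℕ) (γ : Γ) : Prop :=
  NothingNew (G.ρ X) G.χ (E.gr X (2 * j)) j γ

/-- The action on `H^(2 j n)(X ^ n)` is semisimple, for `1 ≤ n ≤ b`, where `b` is the dimension of
`H^(2 j)(X)`. -/
def SemisimplePowers (X : 𝒱.Obj) (j : ℕ) : Prop :=
  ∀ n < betti E X j, SemisimpleAt G (pw X n) (2 * (j * (n + 1)))

/-- Every alternating Tate class in `Λ ^ (n + 1) H^(2 j)(X)` is a linear combination of alternating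
products of Tate classes on `X`. -/
def AltGenerated (X : 𝒱.Obj) (j n : ℕ) : Prop :=
  AllIn (IsAltTate G X j n) (altSpan E X n (IsTate G X j))

/-- For all odd numbers `n + 1` with `3 ≤ n + 1 ≤ b`, where `b` is the dimension of `H^(2 j)(X)`,
every alternating Tate class in `Λ ^ (n + 1) H^(2 j)(X)` is a linear combination of alternating
products of Tate classes on `X`. -/
def NoOddExotic (X : 𝒱.Obj) (j : ℕ) : Prop :=
  ∀ n, Even n → 2 ≤ n → n < betti E X j → AltGenerated G X j n

end Pool.Agent.Q10.JT
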