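import Pool.Agent.Q10.JT.Cont
import Pool.Agent.Q10.JT.Avg
import Pool.Agent.Q60.TD.Defs

/-!
# The polynomial of the alternating Tate classes
-/

open CategoryTheory AlgebraicGeometry

universe u w

set_option linter.unusedSectionVars false

namespace Pool.Agent.Q10.JT

open Module
open Pool.Agent.H914 Pool.Agent.H914.VarClass Pool.Agent.H914.VarClass.Obj
  Pool.Agent.H914.WeilCohomology
open Pool.Agent.Y133.Half (pw prj)
open Pool.Agent.Q55 (GaloisAction SubAction Virtually)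
open Pool.Agent.Q50.MTC (IsTate IsLadic)
open Pool.Agent.Q50.LI (dimSpan)
open Pool.Agent.Q60.TD (SemisimpleAt ActSemisimple ActStable Stab SSon Op mem_Op stab_op
  ss_finiteIndex)

variable {k : Type u} [Field k] {𝒱 : VarClass k} {ops : CycleOps 𝒱}
  {E : WeilCohomology.{u, 0} ops} {Γ : Type w} [Group Γ] {G : GaloisAction E Γ} {X : 𝒱.Obj}

lemma betti_eq (X : 𝒱.Obj) (j : ℕ) : betti E X j = finrank E.K (E.gr X (2 * j)) := by
  rw [betti, dimSpan]
  have h1 : {c | InDeg E X j c} = (E.gr X (2 * j) : Set (E.H X)) := rfl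
  rw [h1, Submodule.span_eq]

lemma prod_mem_gr {Y : 𝒱.Obj} {d : ℕ} (L : List (E.H Y)) (h : ∀ x ∈ L, x ∈ E.gr Y d) :
    L.prod ∈ E.gr Y (L.length * d) := by
  induction L with
  | nil =>
    rw [List.prod_nil, List.length_nil, zero_mul]
    exact E.one_mem Y
  | cons a L ih =>
    rw [List.prod_cons, List.length_cons, add_mul, one_mul, add_comm]
    exact E.mul_mem (h a List.mem_cons_self) (ih fun x hx => h x (List.mem_cons_of_mem _ hx))

lemma altProd_mem {j n : ℕ} {v : Fin (n + 1) → E.H X} (hv : ∀ l, v l ∈ E.gr X (2 * j)) :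
    altProd E X n v ∈ E.gr (pw X n) (2 * (j * (n + 1))) := by
  rw [altProd, altSum]
  refine Submodule.sum_mem _ fun σ _ => ?_
  have h1 := prod_mem_gr (E := E) (d := 2 * j)
    (List.ofFn fun l => E.map (prj X n l) (v (σ l))) (by
      intro x hx
      rw [List.mem_ofFn] at hx
      obtain ⟨l, rfl⟩ := hx
      exact E.map_mem _ (hv _))
  rw [List.length_ofFn] at h1
  have h2 : (n + 1) * (2 * j) = 2 * (j * (n + 1)) := by ring
  rw [h2] at h1
  rw [Units.smul_def]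
  exact Submodule.smul_of_tower_mem _ _ h1

lemma altSpan_le {j n : ℕ} : altSpan E X n (fun x => x ∈ E.gr X (2 * j)) ≤
    E.gr (pw X n) (2 * (j * (n + 1))) := by
  rw [altSpan, altSpanOf, Submodule.span_le]
  rintro _ ⟨v, hv, rfl⟩
  exact altProd_mem hv

/-- A common subgroup which fixes all alternating Tate classes. -/
lemma exists_common (G : GaloisAction E Γ) (X : 𝒱.Obj) (j n : ℕ) :
    ∃ Δ : Subgroup Γ, Δ.FiniteIndex ∧ ∀ g ∈ Δ, ∀ c, IsAltTate G X j n c →
      (G.ρ (pw X n)).Twists G.χ (j * (n + 1)) c g := by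
  obtain ⟨B, hB, hs, hli⟩ := exists_linearIndependent E.K {c | IsAltTate G X j n c}
  have hfin : Finite B := hli.finite
  choose D hD h using fun c : B => (hB c.2).2.2
  refine ⟨⨅ c, D c, Subgroup.finiteIndex_iInf hD, ?_⟩
  intro g hg c hc
  have hc' : c ∈ Submodule.span E.K B := by
    rw [hs]
    exact Submodule.subset_span hc
  clear hc
  intro hgd
  induction hc' using Submodule.span_induction with
  | mem x hx => exact h ⟨x, hx⟩ g (Subgroup.mem_iInf.1 hg _) hgd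
  | zero => rw [map_zero, smul_zero]
  | add x y _ _ hx hy => rw [map_add, hx, hy, smul_add]
  | smul a x _ hx => rw [map_smul, hx, smul_comm]

/-- The action on the cohomology as a representation. -/
noncomputable def repD (G : GaloisAction E Γ) (Y : 𝒱.Obj) :
    (G.ρ Y).dom →* Module.End E.K (E.H Y) where
  toFun g := ((G.ρ Y).act g).toLinearMap
  map_one' := by
    refine LinearMap.ext fun x => ?_
    change (G.ρ Y).act 1 x = x
    have h1 : (G.ρ Y).act 1 = 1 := by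
      have h2 := (G.ρ Y).act_mul 1 (Subgroup.one_mem _) 1 (Subgroup.one_mem _)
      rw [mul_one] at h2
      exact mul_eq_left.1 h2.symm
    rw [h1]
    rfl
  map_mul' g h := by
    refine LinearMap.ext fun x => ?_
    change (G.ρ Y).act (g * h) x = (G.ρ Y).act g ((G.ρ Y).act h x)
    rw [(G.ρ Y).act_mul _ g.2 _ h.2]
    rfl

lemma ss_repD {Y : 𝒱.Obj} {i : ℕ} (h : SemisimpleAt G Y i) :
    SSon (Op (repD G Y) ⊤) (E.gr Y i) := by
  intro V hV hVs
  rw [stab_op] at hVs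
  obtain ⟨V', h1, h2, h3, h4⟩ := h V hV (fun g hg c hc => hVs ⟨g, hg⟩ (Subgroup.mem_top _) c hc)
  refine ⟨V', h1, ?_, h3, h4⟩
  rw [stab_op]
  exact fun g _ c hc => h2 g g.2 c hc

/-- **Semisimplicity of the exterior powers.** -/
theorem ss_ext {j n : ℕ} (hss : SemisimpleAt G (pw X n) (2 * (j * (n + 1)))) {Δ : Subgroup Γ}
    (hfi : Δ.FiniteIndex) (hΔ : Δ ≤ (G.ρ X).dom) (hg : ∀ g ∈ Δ, Good G X n g) :
    SSon (Op (repL (repV G X j Δ hΔ) (n + 1)) ⊤) ⊤ := by
  have hfi' := (G.isGalois (pw X n)).finiteIndex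
  let φ := extM E X n (E.gr X (2 * j))
  let σ := repD G (pw X n)
  have hst : Stab (Op σ ⊤) (E.gr (pw X n) (2 * (j * (n + 1)))) := by
    rw [stab_op]
    intro g _ x hx
    exact (G.isGalois (pw X n)).gr_mem g g.2 _ x hx
  have h1 : SSon (Op σ (Δ.subgroupOf (G.ρ (pw X n)).dom)) (E.gr (pw X n) (2 * (j * (n + 1)))) :=
    ss_finiteIndex _ hst (ss_repD hss)
  have hle : (⊤ : Submodule E.K (⋀[E.K]^(n + 1) (E.gr X (2 * j)))).map φ ≤
      E.gr (pw X n) (2 * (j * (n + 1))) := by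
    rw [Submodule.map_top, range_extM]
    exact altSpan_le
  have hact : ∀ (g : Γ) (hgΔ : g ∈ Δ) (x : ⋀[E.K]^(n + 1) (E.gr X (2 * j))),
      (G.ρ (pw X n)).act g (φ x) = (G.χ g : E.K) ^ (j * (n + 1)) •
        φ (repL (repV G X j Δ hΔ) (n + 1) ⟨g, hgΔ⟩ x) := by
    intro g hgΔ x
    have h2 := extM_repL (hΔ := hΔ) ⟨g, hgΔ⟩ (hg g hgΔ) x
    change φ _ = _ at h2
    rw [h2, smul_smul, mul_inv_cancel₀ (pow_ne_zero _ (Units.ne_zero _)), one_smul]
  have hst' : Stab (Op σ (Δ.subgroupOf (G.ρ (pw X n)).dom))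
      ((⊤ : Submodule E.K (⋀[E.K]^(n + 1) (E.gr X (2 * j)))).map φ) := by
    rw [stab_op]
    rintro ⟨g, hgd⟩ hgΔ _ ⟨x, -, rfl⟩
    change (G.ρ (pw X n)).act g (φ x) ∈ _
    rw [hact g hgΔ]
    exact Submodule.smul_mem _ _ ⟨_, trivial, rfl⟩
  have h2 := h1.mono hle hst'
  -- twist the operators
  let N' : Set (Module.End E.K (E.H (pw X n))) := {f | ∃ (g : Γ) (_ : g ∈ Δ),
    f = ((G.χ g : E.K) ^ (j * (n + 1)))⁻¹ • ((G.ρ (pw X n)).act g).toLinearMap}
  have hN : ∀ W : Submodule E.K (E.H (pw X n)), Stab N' W ↔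
      Stab (Op σ (Δ.subgroupOf (G.ρ (pw X n)).dom)) W := by
    intro W
    constructor
    · rintro h _ ⟨⟨g, hgd⟩, hgΔ, rfl⟩ w hw
      have h3 := h _ ⟨g, hgΔ, rfl⟩ w hw
      have h4 := W.smul_mem ((G.χ g : E.K) ^ (j * (n + 1))) h3
      rw [LinearMap.smul_apply, smul_smul, mul_inv_cancel₀ (pow_ne_zero _ (Units.ne_zero _)),
        one_smul] at h4
      exact h4
    · rintro h _ ⟨g, hgΔ, rfl⟩ w hw
      exact W.smul_mem _ (h _ ⟨⟨g, (hg g hgΔ).2.1⟩, hgΔ, rfl⟩ w hw)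
  have h3 : SSon N' ((⊤ : Submodule E.K (⋀[E.K]^(n + 1) (E.gr X (2 * j)))).map φ) := by
    intro W hW hWs
    obtain ⟨C, hC, hCs, h4, h5⟩ := h2 W hW ((hN W).1 hWs)
    exact ⟨C, hC, (hN C).2 hCs, h4, h5⟩
  refine SSon.comap φ (extM_inj X n (2 * j)) ?_ ?_ h3
  · rintro _ ⟨g, -, rfl⟩
    exact ⟨_, ⟨g, g.2, rfl⟩, fun x => (extM_repL g (hg g g.2) x).symm⟩
  · rintro _ ⟨g, hgΔ, rfl⟩
    exact ⟨_, ⟨⟨g, hgΔ⟩, Subgroup.mem_top _, rfl⟩, fun x =>
      (extM_repL (hΔ := hΔ) ⟨g, hgΔ⟩ (hg g hgΔ) x).symm⟩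

/-- The invariants of the exterior powers are the alternating Tate classes. -/
theorem finrank_inv {j n : ℕ} {Δ : Subgroup Γ} (hfi : Δ.FiniteIndex) (hΔ : Δ ≤ (G.ρ X).dom)
    (hg : ∀ g ∈ Δ, Good G X n g) (hT : ∀ g ∈ Δ, ∀ c, IsAltTate G X j n c →
      (G.ρ (pw X n)).Twists G.χ (j * (n + 1)) c g) :
    finrank E.K (inv (repL (repV G X j Δ hΔ) (n + 1))) = altDim G X j (n + 1) := by
  let φ := extM E X n (E.gr X (2 * j))
  have hφ : Function.Injective φ := extM_inj X n (2 * j)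
  have h1 : (inv (repL (repV G X j Δ hΔ) (n + 1))).map φ =
      Submodule.span E.K {c | IsAltTate G X j n c} := by
    apply le_antisymm
    · rintro _ ⟨x, hx, rfl⟩
      apply Submodule.subset_span
      have h2 : φ x ∈ altSpan E X n (fun x => x ∈ E.gr X (2 * j)) := by
        rw [← range_extM (S := E.gr X (2 * j))]
        exact ⟨x, rfl⟩
      refine ⟨h2, altSpan_le h2, Δ, hfi, fun g hgΔ _ => ?_⟩
      have h3 := extM_repL (hΔ := hΔ) ⟨g, hgΔ⟩ (hg g hgΔ) x
      rw [hx ⟨g, hgΔ⟩] at h3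
      change (G.ρ (pw X n)).act g (φ x) = _
      change φ x = _ • (G.ρ (pw X n)).act g (φ x) at h3
      conv_rhs => rw [h3]
      rw [smul_smul, mul_inv_cancel₀ (pow_ne_zero _ (Units.ne_zero _)), one_smul]
    · rw [Submodule.span_le]
      intro c hc
      have h2 : c ∈ altSpan E X n (fun x => x ∈ E.gr X (2 * j)) := hc.1
      rw [← range_extM (S := E.gr X (2 * j))] at h2
      obtain ⟨x, rfl⟩ := h2
      refine ⟨x, ?_, rfl⟩
      intro g
      apply hφ
      have h3 := extM_repL (hΔ := hΔ) g (hg g g.2) x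
      change φ _ = _ at h3
      rw [h3, hT g g.2 _ hc (hg g g.2).2.1, smul_smul,
        inv_mul_cancel₀ (pow_ne_zero _ (Units.ne_zero _)), one_smul]
  rw [altDim, dimSpan, ← h1]
  exact LinearEquiv.finrank_eq (Submodule.equivMapOfInjective φ hφ _)

end Pool.Agent.Q10.JT
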