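import Pool.Agent.Q10.JT.Fin

/-!
# Jumping Tate classes and alternating Tate classes on powers
-/

open CategoryTheory AlgebraicGeometry

universe u w

set_option linter.unusedSectionVars false

namespace Pool.Agent.Q10.JT

open Module
open Pool.Agent.H914 Pool.Agent.H914.VarClass Pool.Agent.H914.VarClass.Obj
  Pool.Agent.H914.WeilCohomology
open Pool.Agent.Y133.Half (pw prj)
open Pool.Agent.Q55 (GaloisAction SubAction Virtually)
open Pool.Agent.Q50.MTC (IsTate IsLadic)
open Pool.Agent.Q50.LI (dimSpan tateDim)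
open Pool.Agent.Q60.TD (SemisimpleAt ActSemisimple ActStable Stab SSon Op mem_Op stab_op
  ss_finiteIndex)

section zero

variable {K V : Type*} [Field K] [AddCommGroup V] [Module K V] {D : Type*} [Group D]
  (ρ : D →* Module.End K V)

lemma repL_zero (g : D) : repL ρ 0 g = 1 := by
  rw [repL_apply]
  apply exteriorPower.linearMap_ext
  ext v
  change ((exteriorPower.map 0 (ρ g) (exteriorPower.ιMulti K 0 v) : ⋀[K]^0 V) :
    ExteriorAlgebra K V) = _
  rw [exteriorPower.map_apply_ιMulti]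
  have h1 : ρ g ∘ v = v := Subsingleton.elim _ _
  rw [h1]
  rfl

lemma ss_zero [FiniteDimensional K V] : SSon (Op (repL ρ 0) ⊤) ⊤ := by
  intro W _ _
  obtain ⟨C, hC⟩ := Submodule.exists_isCompl W
  refine ⟨C, le_top, ?_, hC.inf_eq_bot, hC.sup_eq_top⟩
  rw [stab_op]
  intro g _ w hw
  rw [repL_zero]
  exact hw

lemma inv_zero' [FiniteDimensional K V] : finrank K (inv (repL ρ 0)) = 1 := by
  have h1 : inv (repL ρ 0) = ⊤ := by
    rw [eq_top_iff]
    intro x _ g
    rw [repL_zero]
    rfl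
  rw [h1, finrank_top, exteriorPower.finrank_eq, Nat.choose_zero_right]

end zero

variable {k : Type u} [Field k] {𝒱 : VarClass k} {ops : CycleOps 𝒱}
  {E : WeilCohomology.{u, 0} ops} {Γ : Type w} [Group Γ] [TopologicalSpace Γ]
  {G : GaloisAction E Γ} {X : 𝒱.Obj} {ℓ : ℕ} [Fact ℓ.Prime] {e : E.K ≃+* ℚ_[ℓ]}

/-- **The alternating sums.** -/
theorem sum_zero (hX : IsLadic (G.ρ X) G.χ e) {j r : ℕ}
    (hss : SemisimplePowers G X j)
    (hr : VirtDense (ManyFixed G X j r)) {i : ℕ} (hi : i < r) :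
    ∑ n ∈ Finset.range (betti E X j + 1), (n.choose i : ℤ) *
      ((-1) ^ n * (altDim G X j n : ℤ)) = 0 := by
  classical
  have hb := betti_eq (E := E) X j
  obtain ⟨Δ₀, hΔ₀, h0⟩ := hr
  choose D1 hD1 h1 using fun n => exists_good G X n
  choose D2 hD2 h2 using fun n => exists_common G X j n
  have hd := (G.isGalois X).finiteIndex
  have hf1 : (⨅ n : Fin (betti E X j), D1 n).FiniteIndex := Subgroup.finiteIndex_iInf fun n => hD1 n
  have hf2 : (⨅ n : Fin (betti E X j), D2 n).FiniteIndex := Subgroup.finiteIndex_iInf fun n => hD2 n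
  obtain ⟨Δ, hΔe⟩ : ∃ Δ : Subgroup Γ, Δ = (G.ρ X).dom ⊓ Δ₀ ⊓ (⨅ n : Fin (betti E X j), D1 n) ⊓
    (⨅ n : Fin (betti E X j), D2 n) := ⟨_, rfl⟩
  have hfi : Δ.FiniteIndex := by
    rw [hΔe]
    infer_instance
  have hΔ : Δ ≤ (G.ρ X).dom := fun g hg => by
    rw [hΔe] at hg
    exact hg.1.1.1
  have hΔ0 : ∀ g ∈ Δ, g ∈ closure {γ | ManyFixed G X j r γ} := fun g hg => by
    rw [hΔe] at hg
    exact h0 g hg.1.1.2
  have hgood : ∀ n < betti E X j, ∀ g ∈ Δ, Good G X n g := fun n hn g hg => by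
    rw [hΔe] at hg
    exact h1 n g (Subgroup.mem_iInf.1 hg.1.2 ⟨n, hn⟩)
  have htate : ∀ n < betti E X j, ∀ g ∈ Δ, ∀ c, IsAltTate G X j n c →
      (G.ρ (pw X n)).Twists G.χ (j * (n + 1)) c g := fun n hn g hg => by
    rw [hΔe] at hg
    exact h2 n g (Subgroup.mem_iInf.1 hg.2 ⟨n, hn⟩)
  let ρ : ∀ n : Fin (betti E X j + 1), Δ →* Module.End E.K (⋀[E.K]^(n : ℕ) (E.gr X (2 * j))) :=
    fun n => repL (repV G X j Δ hΔ) n
  have hs : ∀ n, SSon (Op (ρ n) ⊤) ⊤ := by
    rintro ⟨n, hn⟩
    rcases n with _ | n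
    · exact ss_zero _
    · exact ss_ext (hss n (by omega)) hfi hΔ (hgood n (by omega))
  have hinv : ∀ n, finrank E.K (inv (ρ n)) = altDim G X j n := by
    rintro ⟨n, hn⟩
    rcases n with _ | n
    · exact inv_zero' _
    · exact finrank_inv hfi hΔ (hgood n (by omega)) (htate n (by omega))
  have hav := avg ρ hs (fun n => (((n : ℕ).choose i : ℕ) : E.K) * (-1) ^ (n : ℕ)) (by
    intro g
    have h3 := altTr_closure hX (hΔ0 g g.2) (hΔ g.2) hi
    rw [altTr, ← hb, Finset.sum_range] at h3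
    rw [← h3]
    refine Finset.sum_congr rfl fun n _ => ?_
    rw [mul_assoc]
    rfl)
  simp only [hinv] at hav
  have hcast : ((∑ n ∈ Finset.range (betti E X j + 1), (n.choose i : ℤ) *
      ((-1) ^ n * (altDim G X j n : ℤ)) : ℤ) : E.K) = 0 := by
    rw [← hav, Finset.sum_range]
    push_cast
    refine Finset.sum_congr rfl fun n _ => ?_
    ring
  exact_mod_cast hcast

lemma altPoly_coeff (G : GaloisAction E Γ) (X : 𝒱.Obj) (j n : ℕ) (hn : n ≤ betti E X j) :
    (altPoly G X j).coeff n = (-1) ^ n * (altDim G X j n : ℤ) := by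
  rw [altPoly, Polynomial.finsetSum_coeff, Finset.sum_eq_single n]
  · rw [Polynomial.coeff_C_mul, neg_pow, ← Polynomial.C_1, ← Polynomial.C_neg, ← Polynomial.C_pow,
      Polynomial.coeff_C_mul, Polynomial.coeff_X_pow_self, mul_one, mul_comm]
  · intro m _ hm
    rw [Polynomial.coeff_C_mul, neg_pow, ← Polynomial.C_1, ← Polynomial.C_neg, ← Polynomial.C_pow,
      Polynomial.coeff_C_mul, Polynomial.coeff_X_pow, if_neg (Ne.symm hm), mul_zero, mul_zero]
  · intro h
    rw [Finset.mem_range] at h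
    omega

lemma altPoly_natDegree (G : GaloisAction E Γ) (X : 𝒱.Obj) (j : ℕ) :
    (altPoly G X j).natDegree ≤ betti E X j := by
  rw [altPoly]
  refine Polynomial.natDegree_sum_le_of_forall_le _ _ fun n hn => ?_
  rw [Finset.mem_range] at hn
  refine (Polynomial.natDegree_C_mul_le _ _).trans ?_
  rw [neg_pow, ← Polynomial.C_1, ← Polynomial.C_neg, ← Polynomial.C_pow]
  refine (Polynomial.natDegree_C_mul_X_pow_le _ _).trans (by omega)

/-- **Divisibility.** -/
theorem altPoly_dvd (hX : IsLadic (G.ρ X) G.χ e) {j r : ℕ}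
    (hss : SemisimplePowers G X j)
    (hr : VirtDense (ManyFixed G X j r)) :
    (1 - Polynomial.X) ^ r ∣ altPoly G X j := by
  rw [dvd_iff (altPoly_natDegree G X j)]
  intro i hi
  rw [← sum_zero hX hss hr hi]
  refine Finset.sum_congr rfl fun n hn => ?_
  rw [Finset.mem_range] at hn
  rw [altPoly_coeff G X j n (by omega)]

lemma altProd_zero (E : WeilCohomology.{u, 0} ops) (X : 𝒱.Obj) (c : E.H (pw X 0)) :
    altProd E X 0 (fun _ => (c : E.H X)) = c := by
  have i1 : Subsingleton (Fin (0 + 1)) := inferInstanceAs (Subsingleton (Fin 1))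
  have h1 := Fintype.sum_subsingleton (fun σ : Equiv.Perm (Fin (0 + 1)) =>
    Equiv.Perm.sign σ • (List.ofFn fun l => E.map (prj X 0 l) (c : E.H X)).prod) 1
  have h2 : (List.ofFn fun l : Fin (0 + 1) => E.map (prj X 0 l) (c : E.H X)).prod = c := by
    rw [List.ofFn_succ, List.ofFn_zero, List.prod_singleton]
    exact E.map_id _ _
  refine Eq.trans (b := Equiv.Perm.sign (1 : Equiv.Perm (Fin (0 + 1))) •
    (List.ofFn fun l : Fin (0 + 1) => E.map (prj X 0 l) (c : E.H X)).prod) h1 ?_
  rw [h2, Equiv.Perm.sign_one]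
  exact one_smul _ _

/-- The dimension of the span of the alternating products. -/
lemma finrank_altSpan (T : Submodule E.K (E.H X)) (n : ℕ) :
    finrank E.K (altSpan E X n (fun x => x ∈ T)) ≤ (finrank E.K T).choose (n + 1) := by
  rw [← range_extM, ← exteriorPower.finrank_eq]
  exact LinearMap.finrank_range_le _

/-- **Exotic alternating Tate classes.** -/
theorem exists_exotic (hX : IsLadic (G.ρ X) G.χ e) {j r : ℕ}
    (hss : SemisimplePowers G X j)
    (hr : VirtDense (ManyFixed G X j r)) (ha : tateDim G X j < r) :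
    ∃ n, Even n ∧ 2 ≤ n ∧ n < betti E X j ∧ ∃ c, IsAltTate G X j n c ∧
      c ∉ altSpan E X n (IsTate G X j) := by
  classical
  by_contra hcon
  push Not at hcon
  let T := Submodule.span E.K {c | IsTate G X j c}
  have hTa : finrank E.K T = tateDim G X j := rfl
  obtain ⟨a, haa⟩ : ∃ a, a = tateDim G X j := ⟨_, rfl⟩
  rw [← haa] at ha hTa
  have hle : ∀ n, altSpan E X n (IsTate G X j) ≤ altSpan E X n (fun x => x ∈ T) := by
    intro n
    apply Submodule.span_mono
    rintro c ⟨v, hv, rfl⟩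
    exact ⟨v, fun l => Submodule.subset_span (hv l), rfl⟩
  have hbd : ∀ n, (∀ c, IsAltTate G X j n c → c ∈ altSpan E X n (IsTate G X j)) →
      altDim G X j (n + 1) ≤ a.choose (n + 1) := by
    intro n h
    have h1 := finrank_altSpan (E := E) T n
    rw [hTa] at h1
    refine le_trans ?_ h1
    rw [altDim, dimSpan]
    apply Submodule.finrank_mono
    rw [Submodule.span_le]
    exact fun c hc => hle n (h c hc)
  have hodd : ∀ n, n ≤ betti E X j → Odd n → altDim G X j n ≤ a.choose n := by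
    intro n hn ho
    obtain ⟨m, rfl⟩ := ho
    rcases Nat.eq_zero_or_pos m with rfl | hm
    · apply hbd 0
      intro c hc
      apply Submodule.subset_span
      refine ⟨fun _ => c, fun _ => ?_, (altProd_zero E X c).symm⟩
      have h1 := hc.2
      rw [zero_add, mul_one] at h1
      exact h1
    · exact hbd (2 * m) (hcon (2 * m) (even_two_mul m) (by omega) (by omega))
  have haN : a ≤ betti E X j := by
    rw [← hTa, betti_eq]
    apply Submodule.finrank_mono
    rw [Submodule.span_le]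
    exact fun c hc => hc.1
  -- the sum of the dimensions
  let N := betti E X j
  have hA : ∑ n ∈ Finset.range (N + 1), ((-1) ^ n * (altDim G X j n : ℤ)) = 0 := by
    have h1 := sum_zero hX hss hr (show 0 < r by omega)
    simpa using h1
  have hS : (2 : ℤ) ^ r ≤ ∑ n ∈ Finset.range (N + 1), (altDim G X j n : ℤ) := by
    obtain ⟨Q, hQ⟩ := altPoly_dvd hX hss hr
    have h1 := congrArg (Polynomial.eval (-1)) hQ
    have h2 : (altPoly G X j).eval (-1) = ∑ n ∈ Finset.range (N + 1), (altDim G X j n : ℤ) := by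
      rw [altPoly, Polynomial.eval_finsetSum]
      refine Finset.sum_congr rfl fun n _ => ?_
      rw [Polynomial.eval_mul, Polynomial.eval_C, Polynomial.eval_pow, Polynomial.eval_neg,
        Polynomial.eval_X, neg_neg, one_pow, mul_one]
    rw [h2, Polynomial.eval_mul, Polynomial.eval_pow, Polynomial.eval_sub, Polynomial.eval_one,
      Polynomial.eval_X] at h1
    have h3 : (1 - -1 : ℤ) = 2 := by norm_num
    rw [h3] at h1
    have h4 : (0 : ℤ) < ∑ n ∈ Finset.range (N + 1), (altDim G X j n : ℤ) := by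
      refine Finset.sum_pos' (fun n _ => Int.natCast_nonneg _) ⟨0, by simp, ?_⟩
      rw [altDim]
      norm_num
    rw [h1] at h4 ⊢
    have h5 : 0 < Q.eval (-1) := by
      by_contra h6
      have h7 : (2 : ℤ) ^ r * Q.eval (-1) ≤ 0 :=
        mul_nonpos_of_nonneg_of_nonpos (by positivity) (not_lt.1 h6)
      omega
    nlinarith [show (0 : ℤ) < 2 ^ r by positivity]
  have hC1 : ∑ n ∈ Finset.range (N + 1), (a.choose n : ℤ) = 2 ^ a := by
    rw [← Finset.sum_subset (Finset.range_mono (Nat.succ_le_succ haN))]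
    · have h1 := Nat.sum_range_choose a
      exact_mod_cast h1
    · intro n _ hn
      rw [Finset.mem_range] at hn
      rw [Nat.choose_eq_zero_of_lt (by omega), Nat.cast_zero]
  have hC2 : 0 ≤ ∑ n ∈ Finset.range (N + 1), ((-1) ^ n * (a.choose n : ℤ)) := by
    rw [← Finset.sum_subset (Finset.range_mono (Nat.succ_le_succ haN))]
    · have h1 := Int.alternating_sum_range_choose (n := a)
      rw [h1]
      split_ifs <;> norm_num
    · intro n _ hn
      rw [Finset.mem_range] at hn
      rw [Nat.choose_eq_zero_of_lt (by omega), Nat.cast_zero, mul_zero]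
  have hcmp : ∑ n ∈ Finset.range (N + 1), ((1 - (-1) ^ n) * (altDim G X j n : ℤ)) ≤
      ∑ n ∈ Finset.range (N + 1), ((1 - (-1) ^ n) * (a.choose n : ℤ)) := by
    refine Finset.sum_le_sum fun n hn => ?_
    rw [Finset.mem_range] at hn
    rcases Nat.even_or_odd n with h | h
    · rw [h.neg_one_pow, sub_self, zero_mul, zero_mul]
    · rw [h.neg_one_pow]
      have h1 := hodd n (by omega) h
      have h2 : (altDim G X j n : ℤ) ≤ (a.choose n : ℤ) := by exact_mod_cast h1
      linarith
  simp only [sub_mul, one_mul, Finset.sum_sub_distrib] at hcmp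
  rw [hA, hC1] at hcmp
  have h9 : (2 : ℤ) ^ a < 2 ^ r := pow_lt_pow_right₀ (by norm_num) ha
  linarith

end Pool.Agent.Q10.JT
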