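import Pool.Agent.Q10.JT.Main

/-!
# Reductions without jumps
-/

open CategoryTheory AlgebraicGeometry

universe u w

set_option linter.unusedSectionVars false

namespace Pool.Agent.Q10.JT

open Module
open Pool.Agent.H914 Pool.Agent.H914.VarClass Pool.Agent.H914.VarClass.Obj
  Pool.Agent.H914.WeilCohomology
open Pool.Agent.Y133.Half (pw prj)
open Pool.Agent.Q55 (GaloisAction SubAction Virtually)
open Pool.Agent.Q50.MTC (IsTate IsLadic)
open Pool.Agent.Q50.LI (dimSpan tateDim)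
open Pool.Agent.Q60.TD (SemisimpleAt)

variable {k : Type u} [Field k] {𝒱 : VarClass k} {ops : CycleOps 𝒱}
  {E : WeilCohomology.{u, 0} ops} {Γ : Type w} [Group Γ]
  {G : GaloisAction E Γ} {X : 𝒱.Obj}

/-- A common subgroup which fixes all Tate classes. -/
lemma exists_common_tate (G : GaloisAction E Γ) (X : 𝒱.Obj) (j : ℕ) :
    ∃ Δ : Subgroup Γ, Δ.FiniteIndex ∧ ∀ g ∈ Δ, ∀ c ∈ Submodule.span E.K {c | IsTate G X j c},
      (G.ρ X).Twists G.χ j c g := by
  obtain ⟨B, hB, hs, hli⟩ := exists_linearIndependent E.K {c | IsTate G X j c}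
  have hfin : Finite B := hli.finite
  choose D hD h using fun c : B => (hB c.2).2
  refine ⟨⨅ c, D c, Subgroup.finiteIndex_iInf hD, ?_⟩
  intro g hg c hc'
  rw [← hs] at hc'
  intro hgd
  induction hc' using Submodule.span_induction with
  | mem x hx => exact h ⟨x, hx⟩ g (Subgroup.mem_iInf.1 hg _) hgd
  | zero => rw [map_zero, smul_zero]
  | add x y _ _ hx hy => rw [map_add, hx, hy, smul_add]
  | smul a x _ hx => rw [map_smul, hx, smul_comm]

lemma isTate_of_span {j : ℕ} {c : E.H X} (hc : c ∈ Submodule.span E.K {c | IsTate G X j c}) :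
    IsTate G X j c := by
  obtain ⟨Δ, hΔ, h⟩ := exists_common_tate G X j
  refine ⟨?_, Δ, hΔ, fun g hg => h g hg c hc⟩
  have h1 : Submodule.span E.K {c | IsTate G X j c} ≤ E.gr X (2 * j) := by
    rw [Submodule.span_le]
    exact fun c hc => hc.1
  exact h1 hc

variable [TopologicalSpace Γ] {ℓ : ℕ} [Fact ℓ.Prime] {e : E.K ≃+* ℚ_[ℓ]}

/-- The relation `g c = χ g ^ j c` passes to the closure. -/
lemma twist_closure (hX : IsLadic (G.ρ X) G.χ e) {j : ℕ} {c : E.H X} {Δ : Subgroup Γ}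
    (hΔ : Δ ≤ (G.ρ X).dom) (h : ∀ g ∈ Δ, (G.ρ X).act g c = (G.χ g : E.K) ^ j • c) {g : Γ}
    (hg : g ∈ closure (Δ : Set Γ)) :
    g ∈ (G.ρ X).dom ∧ (G.ρ X).act g c = (G.χ g : E.K) ^ j • c := by
  have tg := hX.topGroup
  let D := (G.ρ X).dom
  let Z : Set D := {g | ∀ f : E.H X →ₗ[E.K] E.K,
    e (f ((G.ρ X).act g c)) = e (G.χ g) ^ j * e (f c)}
  have hZ : IsClosed Z := by
    have h1 : Z = ⋂ f : E.H X →ₗ[E.K] E.K,
        {g : D | e (f ((G.ρ X).act g c)) = e (G.χ g) ^ j * e (f c)} := by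
      ext g
      rw [Set.mem_iInter]
      exact Iff.rfl
    rw [h1]
    exact isClosed_iInter fun f => isClosed_eq (hX.cont c f)
      ((hX.cont'.pow j).mul continuous_const)
  have hZ' : IsClosed ((Subtype.val : D → Γ) '' Z) := by
    have h1 : IsClosed (D : Set Γ) := D.isClosed_of_isOpen hX.isOpen
    exact h1.isClosedEmbedding_subtypeVal.isClosedMap _ hZ
  have hsub : (Δ : Set Γ) ⊆ (Subtype.val : D → Γ) '' Z := by
    intro g hg
    refine ⟨⟨g, hΔ hg⟩, fun f => ?_, rfl⟩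
    change e (f ((G.ρ X).act g c)) = _
    rw [h g hg, map_smul, smul_eq_mul, map_mul, map_pow]
  obtain ⟨g', h1, h2⟩ := closure_minimal hsub hZ' hg
  subst h2
  refine ⟨g'.2, ?_⟩
  rw [← sub_eq_zero, ← Module.forall_dual_apply_eq_zero_iff E.K]
  intro f
  have h3 := h1 f
  rw [← map_pow, ← map_mul] at h3
  rw [map_sub, map_smul, smul_eq_mul, sub_eq_zero]
  exact e.injective h3

/-- **Reductions without jumps.** -/
theorem no_jump (hX : IsLadic (G.ρ X) G.χ e) {j : ℕ} (hss : SemisimplePowers G X j)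
    (hno : NoOddExotic G X j) : OftenTrue (NoJump G X j) := by
  intro Δ hΔ
  have tg := hX.topGroup
  obtain ⟨a, haa⟩ : ∃ a, a = tateDim G X j := ⟨_, rfl⟩
  -- the number of fixed classes is not always larger
  have hnv : ¬ VirtDense (ManyFixed G X j (a + 1)) := by
    intro hv
    obtain ⟨n, h1, h2, h3, c, hc, hc'⟩ := exists_exotic hX hss hv (by omega)
    exact hc' (hno n h1 h2 h3 c hc)
  obtain ⟨Δ₁, hΔ₁, h1⟩ := exists_common_tate G X j
  have hd := (G.isGalois X).finiteIndex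
  obtain ⟨Δ₂, hΔ₂⟩ : ∃ Δ₂ : Subgroup Γ, Δ₂ = (G.ρ X).dom ⊓ Δ₁ ⊓ Δ := ⟨_, rfl⟩
  have hf2 : Δ₂.FiniteIndex := by
    rw [hΔ₂]
    infer_instance
  have hle1 : Δ₂ ≤ (G.ρ X).dom := fun g hg => by
    rw [hΔ₂] at hg
    exact hg.1.1
  have hle2 : Δ₂ ≤ Δ₁ := fun g hg => by
    rw [hΔ₂] at hg
    exact hg.1.2
  have hle3 : Δ₂ ≤ Δ := fun g hg => by
    rw [hΔ₂] at hg
    exact hg.2
  obtain ⟨g₀, hg₀, hg₀'⟩ : ∃ g ∈ Δ₂, g ∉ closure {γ | ManyFixed G X j (a + 1) γ} := by
    by_contra hcon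
    push Not at hcon
    exact hnv ⟨Δ₂, hf2, hcon⟩
  have hcl : (Δ₂.topologicalClosure).FiniteIndex :=
    Subgroup.finiteIndex_of_le Δ₂.le_topologicalClosure
  have hop : IsOpen (Δ₂.topologicalClosure : Set Γ) :=
    Subgroup.isOpen_of_isClosed_of_finiteIndex _ Δ₂.isClosed_topologicalClosure
  refine ⟨(closure {γ | ManyFixed G X j (a + 1) γ})ᶜ ∩ Δ₂.topologicalClosure,
    isClosed_closure.isOpen_compl.inter hop,
    ⟨g₀, ⟨hg₀', Δ₂.le_topologicalClosure hg₀⟩, hle3 hg₀⟩, ?_⟩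
  rintro g ⟨hg1, hg2⟩
  have hg2' : g ∈ closure (Δ₂ : Set Γ) := hg2
  have hgd : g ∈ (G.ρ X).dom := by
    have h2 := twist_closure hX (c := 0) hle1 (j := j)
      (fun g _ => by rw [map_zero, smul_zero]) hg2'
    exact h2.1
  refine ⟨hgd, fun c hcc => ?_⟩
  have hc := hcc.1
  have hcg := hcc.2 hgd
  -- the spaces of the fixed classes and of the Tate classes are equal
  have hsub : Submodule.span E.K {c | IsTate G X j c} ≤
      Submodule.span E.K {c | c ∈ E.gr X (2 * j) ∧ (G.ρ X).Twists G.χ j c g} := by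
    apply Submodule.span_mono
    intro x hx
    refine ⟨hx.1, fun _ => ?_⟩
    exact (twist_closure hX hle1 (fun g' hg' => h1 g' (hle2 hg') x
      (Submodule.subset_span hx) (hle1 hg')) hg2').2
  have hg3 : ¬ ManyFixed G X j (a + 1) g := fun h => hg1 (subset_closure h)
  have hfr : finrank E.K (Submodule.span E.K
      {c | c ∈ E.gr X (2 * j) ∧ (G.ρ X).Twists G.χ j c g}) ≤
      finrank E.K (Submodule.span E.K {c | IsTate G X j c}) := by
    have h2 : finrank E.K (Submodule.span E.K {c | IsTate G X j c}) = a := haa.symm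
    rw [h2]
    by_contra h3
    apply hg3
    refine ⟨hgd, ?_⟩
    change a + 1 ≤ finrank E.K (Submodule.span E.K
      {c | c ∈ E.gr X (2 * j) ∧ (G.ρ X).Twists G.χ j c g})
    omega
  have heq := Submodule.eq_of_le_of_finrank_le hsub hfr
  apply isTate_of_span
  rw [heq]
  exact Submodule.subset_span ⟨hc, fun _ => hcg⟩

end Pool.Agent.Q10.JT
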