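import Mathlib

/-!
# Polynomials divisible by a power of `1 - X`
-/

open Polynomial

namespace Pool.Agent.Q10.JT

lemma one_sub_dvd_iff {R : Type*} [CommRing R] (P : R[X]) (r : ℕ) :
    (1 - X) ^ r ∣ P ↔ (X - C 1) ^ r ∣ P := by
  have h1 : (1 - X : R[X]) = -(X - C 1) := by
    rw [C_1]
    ring
  rw [h1, neg_pow]
  have hu : IsUnit ((-1 : R[X]) ^ r) := (isUnit_one.neg).pow r
  exact IsUnit.mul_left_dvd hu

lemma dvd_iff {R : Type*} [CommRing R] {P : R[X]} {N : ℕ} (hN : P.natDegree ≤ N) (r : ℕ) :
    (1 - X) ^ r ∣ P ↔ ∀ i < r, ∑ n ∈ Finset.range (N + 1), (n.choose i : R) * P.coeff n = 0 := by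
  rw [one_sub_dvd_iff, X_sub_C_pow_dvd_iff, X_pow_dvd_iff]
  refine forall_congr' fun i => forall_congr' fun _ => ?_
  have h1 : (P.comp (X + C 1)).coeff i =
      ∑ n ∈ Finset.range (N + 1), (n.choose i : R) * P.coeff n := by
    change (taylor 1 P).coeff i = _
    rw [taylor_coeff, hasseDeriv_apply, Polynomial.sum_over_range' _ _ (N + 1) (by omega),
      eval_finsetSum]
    · refine Finset.sum_congr rfl fun n _ => ?_
      rw [eval_monomial, one_pow, mul_one]
    · intro n
      simp
  rw [h1]

/-- The coefficients of the reversed characteristic polynomial. -/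
lemma rev_coeff {R I : Type*} [CommRing R] [Fintype I] [DecidableEq I] (M : Matrix I I R)
    (n : ℕ) : M.charpolyRev.coeff n = (-1) ^ n * ∑ s ∈ Finset.univ.powersetCard n,
      (M.submatrix (Subtype.val : s → I) (Subtype.val : s → I)).det := by
  have h1 : M.charpolyRev = Matrix.det (1 + (X : R[X]) • (-M).map C) := by
    simp only [Matrix.charpolyRev, sub_eq_add_neg]
    congr 2
    rw [Matrix.map_neg C (map_neg C) M, smul_neg]
  rw [h1, Matrix.coeff_det_one_add_X_smul_eq_sum_minors]
  simp only [Matrix.submatrix_neg, Pi.neg_apply, Matrix.det_neg, Fintype.card_coe, Finset.mul_sum]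
  exact Finset.sum_congr rfl fun s hs => by rw [(Finset.mem_powersetCard.mp hs).2]

lemma rev_natDegree {R I : Type*} [CommRing R] [Fintype I] [DecidableEq I] (M : Matrix I I R) :
    M.charpolyRev.natDegree ≤ Fintype.card I := by
  rw [natDegree_le_iff_coeff_eq_zero]
  intro n hn
  rw [rev_coeff, Finset.powersetCard_eq_empty.2 (by simpa using hn), Finset.sum_empty, mul_zero]

lemma reverse_one_sub {K : Type*} [Field K] (r : ℕ) :
    ((X - C 1 : K[X]) ^ r).reverse = (1 - X) ^ r := by
  have h1 : (X - C 1 : K[X]).reverse = 1 - X := by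
    rw [reverse, natDegree_X_sub_C, reflect_sub, reflect_one_X, reflect_C, C_1, one_mul, pow_one]
  induction r with
  | zero => rw [pow_zero, pow_zero, ← C_1, reverse_C]
  | succ r ih => rw [pow_succ, reverse_mul_of_domain, h1, ih, pow_succ]

/-- If the characteristic polynomial is divisible by `(X - 1) ^ r` then the reversed one is
divisible by `(1 - X) ^ r`. -/
lemma rev_dvd {K I : Type*} [Field K] [Fintype I] [DecidableEq I] {M : Matrix I I K} {r : ℕ}
    (h : (X - C 1) ^ r ∣ M.charpoly) : (1 - X) ^ r ∣ M.charpolyRev := by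
  obtain ⟨q, hq⟩ := h
  rw [← Matrix.reverse_charpoly, hq, reverse_mul_of_domain, reverse_one_sub]
  exact dvd_mul_right _ _

end Pool.Agent.Q10.JT
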